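import Mathlib

set_option autoImplicit false

open MeasureTheory Set Filter Topology

namespace Pool.Agent.D393fc

/-- standing hypotheses on the weight -/
structure Wt (ω : ℝ → ℝ) : Prop where
  cont : ContinuousOn ω (Ici 0)
  pos : ∀ x : ℝ, 0 ≤ x → 0 < ω x
  anti : AntitoneOn ω (Ici 0)
  mom : ∀ j : ℕ, IntegrableOn (fun x : ℝ => ω x * x ^ j) (Ioi 0)

variable {ω : ℝ → ℝ}

lemma Wt.intL (h : Wt ω) {r : ℝ} (hr : 0 < r) : IntegrableOn (fun x => ω x / x) (Ioi r) := by
  have h0 := (h.mom 0).mono_set (Ioi_subset_Ioi hr.le)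
  refine Integrable.mono' (h0.const_mul r⁻¹) ?_ ?_
  · refine ContinuousOn.aestronglyMeasurable ?_ measurableSet_Ioi
    refine ContinuousOn.div (h.cont.mono fun x hx => ?_) continuousOn_id fun x hx => ?_
    · exact (hr.trans hx).le
    · exact (hr.trans hx).ne'
  · filter_upwards [ae_restrict_mem measurableSet_Ioi] with x hx
    have hx' : r < x := hx
    have hx0 : 0 < x := hr.trans hx'
    have hw := h.pos x hx0.le
    rw [Real.norm_eq_abs, abs_of_pos (div_pos hw hx0), pow_zero, mul_one, div_eq_inv_mul]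
    exact mul_le_mul_of_nonneg_right (inv_anti₀ hr hx'.le) hw.le

lemma Wt.intJ (h : Wt ω) {r : ℝ} (hr : 0 < r) (j : ℕ) :
    IntegrableOn (fun x => ω x * (x ^ (j + 2))⁻¹) (Ioi r) := by
  refine Integrable.mono' ((h.intL hr).const_mul (r ^ (j + 1))⁻¹) ?_ ?_
  · refine ContinuousOn.aestronglyMeasurable ?_ measurableSet_Ioi
    refine ContinuousOn.mul (h.cont.mono fun x hx => (hr.trans hx).le) ?_
    refine ContinuousOn.inv₀ (by fun_prop) fun x hx => ?_
    exact pow_ne_zero _ (hr.trans hx).ne'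
  · filter_upwards [ae_restrict_mem measurableSet_Ioi] with x hx
    have hx' : r < x := hx
    have hx0 : 0 < x := hr.trans hx'
    have hw := h.pos x hx0.le
    rw [Real.norm_eq_abs, abs_of_pos (by positivity), pow_succ, mul_inv]
    have h1 : (x ^ (j + 1))⁻¹ ≤ (r ^ (j + 1))⁻¹ :=
      inv_anti₀ (by positivity) (pow_le_pow_left₀ hr.le hx'.le _)
    have h2 : 0 ≤ ω x * x⁻¹ := by positivity
    calc ω x * ((x ^ (j + 1))⁻¹ * x⁻¹) = (x ^ (j + 1))⁻¹ * (ω x * x⁻¹) := by ring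
      _ ≤ (r ^ (j + 1))⁻¹ * (ω x * x⁻¹) := mul_le_mul_of_nonneg_right h1 h2
      _ = (r ^ (j + 1))⁻¹ * (ω x / x) := by rw [div_eq_mul_inv]

lemma Wt.L_pos (h : Wt ω) {r : ℝ} (hr : 0 < r) : 0 < ∫ x in Ioi r, ω x / x := by
  rw [setIntegral_pos_iff_support_of_nonneg_ae]
  · have : Function.support (fun x => ω x / x) ∩ Ioi r = Ioi r := by
      ext x
      constructor
      · exact fun hx => hx.2
      · intro hx
        have hx0 : 0 < x := hr.trans hx
        exact ⟨(div_pos (h.pos x hx0.le) hx0).ne', hx⟩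
    rw [this, Real.volume_Ioi]
    exact ENNReal.zero_lt_top
  · filter_upwards [ae_restrict_mem measurableSet_Ioi] with x hx
    have hx0 : 0 < x := hr.trans hx
    exact (div_pos (h.pos x hx0.le) hx0).le
  · exact h.intL hr

lemma Wt.split (h : Wt ω) {r : ℝ} (hr : 0 < r) (j : ℕ) :
    ∫ x in Ioi 0, ω x * x ^ j = (∫ x in Ioc 0 r, ω x * x ^ j) + ∫ x in Ioi r, ω x * x ^ j := by
  rw [← setIntegral_union (Ioc_disjoint_Ioi le_rfl) measurableSet_Ioi, Ioc_union_Ioi_eq_Ioi hr.le]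
  · exact (h.mom j).mono_set Ioc_subset_Ioi_self
  · exact (h.mom j).mono_set (Ioi_subset_Ioi hr.le)

lemma Wt.nonneg_on (h : Wt ω) (j : ℕ) {x : ℝ} (hx : 0 < x) : 0 ≤ ω x * x ^ j := by
  have := h.pos x hx.le
  positivity

lemma Wt.I_nonneg (h : Wt ω) (r : ℝ) (j : ℕ) : 0 ≤ ∫ x in Ioc 0 r, ω x * x ^ j :=
  setIntegral_nonneg measurableSet_Ioc fun x hx => h.nonneg_on j hx.1

lemma Wt.T_nonneg (h : Wt ω) {r : ℝ} (hr : 0 < r) (j : ℕ) : 0 ≤ ∫ x in Ioi r, ω x * x ^ j :=
  setIntegral_nonneg measurableSet_Ioi fun x hx => h.nonneg_on j (hr.trans hx)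

lemma Wt.T_le (h : Wt ω) {r : ℝ} (hr : 0 < r) (j : ℕ) :
    ∫ x in Ioi r, ω x * x ^ j ≤ ∫ x in Ioi 0, ω x * x ^ j := by
  rw [h.split hr j]
  have := h.I_nonneg r j
  linarith

lemma Wt.m_lower (h : Wt ω) {B : ℝ} (hB : 0 < B) (j : ℕ) :
    ω B * B ^ (j + 1) ≤ ((j : ℝ) + 1) * ∫ x in Ioi 0, ω x * x ^ j := by
  have h1 : ∫ x in Ioc 0 B, ω B * x ^ j ≤ ∫ x in Ioc 0 B, ω x * x ^ j := by
    refine setIntegral_mono_on ?_ ((h.mom j).mono_set Ioc_subset_Ioi_self) measurableSet_Ioc ?_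
    · exact (ContinuousOn.integrableOn_Icc (by fun_prop)).mono_set Ioc_subset_Icc_self
    · intro x hx
      exact mul_le_mul_of_nonneg_right (h.anti hx.1.le hB.le hx.2) (pow_nonneg hx.1.le _)
  have h2 : ∫ x in Ioc 0 B, ω B * x ^ j = ω B * (B ^ (j + 1) / (j + 1)) := by
    rw [integral_const_mul, ← intervalIntegral.integral_of_le hB.le, integral_pow]
    simp
  rw [h.split hB j]
  have h3 := h.T_nonneg hB j
  rw [h2] at h1
  have hj : (0 : ℝ) < (j : ℝ) + 1 := by positivity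
  calc ω B * B ^ (j + 1) = ((j : ℝ) + 1) * (ω B * (B ^ (j + 1) / (j + 1))) := by field_simp
    _ ≤ _ := by
      apply mul_le_mul_of_nonneg_left _ hj.le
      linarith

lemma Wt.m_pos (h : Wt ω) (j : ℕ) : 0 < ∫ x in Ioi 0, ω x * x ^ j := by
  have h1 := h.m_lower one_pos j
  have h2 := h.pos 1 zero_le_one
  rw [one_pow, mul_one] at h1
  have hj : (0 : ℝ) < (j : ℝ) + 1 := by positivity
  by_contra hcon
  push Not at hcon
  have := mul_nonpos_of_nonneg_of_nonpos hj.le hcon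
  linarith

lemma Wt.J_nonneg (h : Wt ω) {r : ℝ} (hr : 0 < r) (j : ℕ) :
    0 ≤ ∫ x in Ioi r, ω x * (x ^ (j + 2))⁻¹ :=
  setIntegral_nonneg measurableSet_Ioi fun x hx => by
    have hx0 : 0 < x := hr.trans hx
    have := h.pos x hx0.le
    positivity

lemma Wt.J_le (h : Wt ω) {r : ℝ} (hr : 0 < r) (j : ℕ) :
    ∫ x in Ioi r, ω x * (x ^ (j + 2))⁻¹ ≤ (r ^ (j + 1))⁻¹ * ∫ x in Ioi r, ω x / x := by
  rw [← integral_const_mul]
  refine setIntegral_mono_on (h.intJ hr j) ((h.intL hr).const_mul _) measurableSet_Ioi ?_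
  intro x hx
  have hx' : r < x := hx
  have hx0 : 0 < x := hr.trans hx'
  have hw := h.pos x hx0.le
  have h1 : (x ^ (j + 1))⁻¹ ≤ (r ^ (j + 1))⁻¹ :=
    inv_anti₀ (by positivity) (pow_le_pow_left₀ hr.le hx'.le _)
  have h2 : 0 ≤ ω x * x⁻¹ := by positivity
  rw [pow_succ x (j + 1), mul_inv]
  calc ω x * ((x ^ (j + 1))⁻¹ * x⁻¹) = (x ^ (j + 1))⁻¹ * (ω x * x⁻¹) := by ring
    _ ≤ (r ^ (j + 1))⁻¹ * (ω x * x⁻¹) := mul_le_mul_of_nonneg_right h1 h2
    _ = (r ^ (j + 1))⁻¹ * (ω x / x) := by rw [div_eq_mul_inv]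

lemma Wt.I_le (h : Wt ω) {r : ℝ} (hr : 0 < r) (j : ℕ) :
    ∫ x in Ioc 0 r, ω x * x ^ j ≤ r ^ j * ∫ x in Ioi 0, ω x * x ^ 0 := by
  have h1 : ∫ x in Ioc 0 r, ω x * x ^ j ≤ ∫ x in Ioc 0 r, r ^ j * (ω x * x ^ 0) := by
    refine setIntegral_mono_on ((h.mom j).mono_set Ioc_subset_Ioi_self)
      (((h.mom 0).mono_set Ioc_subset_Ioi_self).const_mul _) measurableSet_Ioc ?_
    intro x hx
    rw [pow_zero, mul_one, mul_comm]
    exact mul_le_mul_of_nonneg_right (pow_le_pow_left₀ hx.1.le hx.2 _) (h.pos x hx.1.le).le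
  refine h1.trans ?_
  rw [integral_const_mul]
  apply mul_le_mul_of_nonneg_left _ (by positivity)
  rw [h.split hr 0]
  have := h.T_nonneg hr 0
  linarith

/-- The key monotonicity. -/
lemma Wt.mono_key (h : Wt ω) {R : ℝ} (hR : 0 < R) (hd : ∀ x : ℝ, R < x → DifferentiableAt ℝ ω x)
    (hs : AntitoneOn (fun x : ℝ => x * deriv ω x / ω x) (Ioi R)) {r₀ r : ℝ} (hr₀ : R < r₀)
    (hr : r₀ ≤ r) (j : ℕ) :
    (∫ x in Ioi r, ω x * x ^ j) * (r₀ ^ (j + 1) * ∫ x in Ioi r₀, ω x / x) ≤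
      (∫ x in Ioi r₀, ω x * x ^ j) * (r ^ (j + 1) * ∫ x in Ioi r, ω x / x) := by
  have hr₀0 : 0 < r₀ := hR.trans hr₀
  have hr0 : 0 < r := lt_of_lt_of_le hr₀0 hr
  set l : ℝ := r / r₀ with hl
  have hl1 : 1 ≤ l := by rw [hl, le_div_iff₀ hr₀0]; linarith
  have hl0 : 0 < l := by linarith
  have hlr : l * r₀ = r := by rw [hl]; field_simp
  -- substitution
  have e1 : ∫ x in Ioi r, ω x * x ^ j = l ^ (j + 1) * ∫ x in Ioi r₀, ω (l * x) * x ^ j := by
    have := integral_comp_mul_left_Ioi' (fun x => ω x * x ^ j) r₀ hl0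
    rw [hlr] at this
    rw [← this, smul_eq_mul, pow_succ, mul_comm (l ^ j) l, mul_assoc]
    congr 1
    rw [← integral_const_mul]
    congr 1
    funext x
    rw [mul_pow]; ring
  have e2 : ∫ x in Ioi r, ω x / x = ∫ x in Ioi r₀, ω (l * x) / x := by
    have := integral_comp_mul_left_Ioi' (fun x => ω x / x) r₀ hl0
    rw [hlr] at this
    rw [← this, smul_eq_mul, ← integral_const_mul]
    congr 1
    funext x
    rw [mul_div_assoc']
    rw [mul_div_mul_left _ _ hl0.ne']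
  have i1 : IntegrableOn (fun x => ω (l * x) * x ^ j) (Ioi r₀) := by
    have h1 : IntegrableOn (fun x => ω x * x ^ j) (Ioi (l * r₀)) := by
      rw [hlr]; exact (h.mom j).mono_set (Ioi_subset_Ioi hr0.le)
    have h2 := (integrableOn_Ioi_comp_mul_left_iff (fun x => ω x * x ^ j) r₀ hl0).mpr h1
    have h3 := h2.const_mul (l ^ j)⁻¹
    refine h3.congr (Eventually.of_forall fun x => ?_)
    simp only
    rw [mul_pow]
    field_simp
  have i2 : IntegrableOn (fun x => ω (l * x) / x) (Ioi r₀) := by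
    have h1 : IntegrableOn (fun x => ω x / x) (Ioi (l * r₀)) := by
      rw [hlr]; exact h.intL hr0
    have h2 := (integrableOn_Ioi_comp_mul_left_iff (fun x => ω x / x) r₀ hl0).mpr h1
    have h3 := h2.const_mul l
    refine h3.congr (Eventually.of_forall fun x => ?_)
    simp only
    rw [mul_div_assoc', mul_div_mul_left _ _ hl0.ne']
  have i3 : IntegrableOn (fun x => ω x * x ^ j) (Ioi r₀) := (h.mom j).mono_set (Ioi_subset_Ioi hr₀0.le)
  have i4 := h.intL hr₀0
  -- `q y = ω (l y) / ω y` is antitone on `Ioi r₀`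
  have hqanti : AntitoneOn (fun y => ω (l * y) / ω y) (Ici r₀) := by
    have hd1 : ∀ y ∈ Ici r₀, HasDerivAt (fun y => ω (l * y) / ω y)
        ((deriv ω (l * y) * l * ω y - ω (l * y) * deriv ω y) / (ω y) ^ 2) y := by
      intro y hy
      have hy' : r₀ ≤ y := hy
      have hy0 : 0 < y := by linarith
      have hly : y ≤ l * y := le_mul_of_one_le_left hy0.le hl1
      have g1 : HasDerivAt (fun y => ω (l * y)) (deriv ω (l * y) * l) y := by
        have := (hd (l * y) (by linarith)).hasDerivAt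
        have h2 : HasDerivAt (fun y : ℝ => l * y) l y := by
          simpa using (hasDerivAt_id y).const_mul l
        exact this.comp y h2
      exact g1.div (hd y (by linarith)).hasDerivAt (h.pos y hy0.le).ne'
    apply antitoneOn_of_deriv_nonpos (convex_Ici r₀)
    · exact fun y hy => (hd1 y hy).continuousAt.continuousWithinAt
    · intro y hy
      rw [interior_Ici] at hy
      exact (hd1 y (Ioi_subset_Ici_self hy)).differentiableAt.differentiableWithinAt
    · intro y hy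
      rw [interior_Ici] at hy
      have hy' : r₀ < y := hy
      have hy0 : 0 < y := by linarith
      have hly : y ≤ l * y := le_mul_of_one_le_left hy0.le hl1
      rw [(hd1 y (Ioi_subset_Ici_self hy)).deriv]
      have hw1 := h.pos y hy0.le
      have hw2 := h.pos (l * y) (by linarith)
      have h1 := hs (show R < y by linarith) (show R < l * y by linarith) hly
      simp only at h1
      rw [div_le_div_iff₀ hw2 hw1] at h1
      apply div_nonpos_of_nonpos_of_nonneg _ (sq_nonneg _)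
      have h2 : y * (deriv ω (l * y) * l * ω y - ω (l * y) * deriv ω y) ≤ 0 := by nlinarith
      by_contra hcon
      push Not at hcon
      have := mul_pos hy0 hcon
      linarith
  -- Chebyshev-type argument
  set P := ∫ x in Ioi r₀, ω x / x with hP
  set Q := ∫ x in Ioi r₀, ω x * x ^ j with hQ
  have hPpos : 0 < P := h.L_pos hr₀0
  have hQnn : 0 ≤ Q := h.T_nonneg hr₀0 j
  -- threshold `A = Q / P`
  set A := Q / P with hA
  have hAQ : A * P = Q := by rw [hA]; field_simp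
  -- choose `c` with the sign change
  have hsign : ∃ c ∈ Ici r₀, ∀ x ∈ Ioi r₀, (ω (l * x) / ω x - ω (l * c) / ω c) * (x ^ (j + 1) - A) ≤ 0 := by
    have hAr : r₀ ^ (j + 1) ≤ A := by
      rw [hA, le_div_iff₀ hPpos, hP, hQ, ← integral_const_mul]
      refine setIntegral_mono_on (i4.const_mul _) i3 measurableSet_Ioi ?_
      intro x hx
      have hx' : r₀ < x := hx
      have hx0 : 0 < x := by linarith
      have hw := h.pos x hx0.le
      have h1 : r₀ ^ (j + 1) ≤ x ^ (j + 1) := pow_le_pow_left₀ hr₀0.le hx'.le _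
      calc r₀ ^ (j + 1) * (ω x / x) ≤ x ^ (j + 1) * (ω x / x) :=
            mul_le_mul_of_nonneg_right h1 (by positivity)
        _ = ω x * x ^ j := by rw [pow_succ]; field_simp
    have hA0 : 0 ≤ A := (pow_nonneg hr₀0.le _).trans hAr
    set c : ℝ := A ^ ((1 : ℝ) / ((j + 1 : ℕ) : ℝ)) with hc
    have hcp : c ^ (j + 1) = A := by
      rw [hc, ← Real.rpow_natCast, ← Real.rpow_mul hA0]
      rw [one_div, inv_mul_cancel₀ (by positivity), Real.rpow_one]
    have hc0 : 0 ≤ c := Real.rpow_nonneg hA0 _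
    have hcr : r₀ ≤ c := by
      by_contra hcon
      push Not at hcon
      have := pow_lt_pow_left₀ hcon hc0 (Nat.succ_ne_zero j)
      rw [Nat.succ_eq_add_one, hcp] at this
      linarith
    refine ⟨c, hcr, fun x hx => ?_⟩
    have hx' : r₀ < x := hx
    have hx0 : 0 < x := by linarith
    rcases le_total x c with hxc | hxc
    · have h1 := hqanti (Ioi_subset_Ici_self hx) hcr hxc
      simp only at h1
      have h2 : x ^ (j + 1) ≤ A := by rw [← hcp]; exact pow_le_pow_left₀ hx0.le hxc _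
      exact mul_nonpos_of_nonneg_of_nonpos (by linarith) (by linarith)
    · have h1 := hqanti hcr (Ioi_subset_Ici_self hx) hxc
      simp only at h1
      have h2 : A ≤ x ^ (j + 1) := by rw [← hcp]; exact pow_le_pow_left₀ hc0 hxc _
      exact mul_nonpos_of_nonpos_of_nonneg (by linarith) (by linarith)
  obtain ⟨c, hc, hsgn⟩ := hsign
  set qc := ω (l * c) / ω c with hqc
  have hint : ∫ x in Ioi r₀, (ω (l * x) * x ^ j - A * (ω (l * x) / x)) ≤
      ∫ x in Ioi r₀, qc * (ω x * x ^ j - A * (ω x / x)) := by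
    refine setIntegral_mono_on (i1.sub (i2.const_mul _)) ((i3.sub (i4.const_mul _)).const_mul _)
      measurableSet_Ioi ?_
    intro x hx
    have hx' : r₀ < x := hx
    have hx0 : 0 < x := by linarith
    have hw := h.pos x hx0.le
    have h1 := hsgn x hx
    have h2 : ω (l * x) * x ^ j - A * (ω (l * x) / x) - qc * (ω x * x ^ j - A * (ω x / x)) =
        (ω x / x) * ((ω (l * x) / ω x - qc) * (x ^ (j + 1) - A)) := by
      rw [pow_succ]
      field_simp
    have h3 : (ω x / x) * ((ω (l * x) / ω x - qc) * (x ^ (j + 1) - A)) ≤ 0 :=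
      mul_nonpos_of_nonneg_of_nonpos (by positivity) h1
    linarith
  rw [integral_sub i1 (i2.const_mul _), integral_const_mul, integral_const_mul,
    integral_sub i3 (i4.const_mul _), integral_const_mul, ← hP, ← hQ, hAQ, sub_self, mul_zero] at hint
  rw [e1, e2]
  have h5 : (∫ x in Ioi r₀, ω (l * x) * x ^ j) * P ≤ Q * ∫ x in Ioi r₀, ω (l * x) / x := by
    have : (∫ x in Ioi r₀, ω (l * x) * x ^ j) * P ≤ (A * ∫ x in Ioi r₀, ω (l * x) / x) * P :=
      mul_le_mul_of_nonneg_right (by linarith) hPpos.le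
    refine this.trans (le_of_eq ?_)
    rw [← hAQ]; ring
  have h6 : r ^ (j + 1) = l ^ (j + 1) * r₀ ^ (j + 1) := by rw [← mul_pow, hlr]
  rw [h6]
  have h7 : 0 ≤ l ^ (j + 1) * r₀ ^ (j + 1) := by positivity
  calc l ^ (j + 1) * (∫ x in Ioi r₀, ω (l * x) * x ^ j) * (r₀ ^ (j + 1) * P)
      = (l ^ (j + 1) * r₀ ^ (j + 1)) * ((∫ x in Ioi r₀, ω (l * x) * x ^ j) * P) := by ring
    _ ≤ (l ^ (j + 1) * r₀ ^ (j + 1)) * (Q * ∫ x in Ioi r₀, ω (l * x) / x) :=
        mul_le_mul_of_nonneg_left h5 h7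
    _ = _ := by ring

end Pool.Agent.D393fc
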