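import Pool.Agent.D393fc.Base

set_option autoImplicit false

open MeasureTheory Set Filter Topology

namespace Pool.Agent.D393fc

variable {ω : ℝ → ℝ}

/-- the terms of the series in the exponent -/
noncomputable def Tm (ω : ℝ → ℝ) (a w : ℂ) (j : ℕ) : ℂ :=
  (a⁻¹ ^ (j + 1) * (((∫ x in Ioc 0 ‖a‖, ω x * x ^ j : ℝ)) : ℂ) -
    ((starRingEnd ℂ) a)⁻¹ ^ (j + 1) * (((∫ x in Ioi ‖a‖, ω x * (x ^ (j + 2))⁻¹ : ℝ)) : ℂ)) *
    w ^ (j + 1) / (((j : ℂ) + 1) * (((∫ x in Ioi 0, ω x * x ^ j : ℝ)) : ℂ))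

lemma norm_den (h : Wt ω) (j : ℕ) :
    ‖(((j : ℂ) + 1) * (((∫ x in Ioi 0, ω x * x ^ j : ℝ)) : ℂ))‖ =
      ((j : ℝ) + 1) * ∫ x in Ioi 0, ω x * x ^ j := by
  rw [norm_mul, Complex.norm_real, Real.norm_eq_abs, abs_of_pos (h.m_pos j)]
  congr 1
  have : ((j : ℂ) + 1) = (((j : ℝ) + 1 : ℝ) : ℂ) := by push_cast; rfl
  rw [this, Complex.norm_real, Real.norm_eq_abs, abs_of_pos (by positivity)]

lemma term_bound (h : Wt ω) (a : ℂ) (ha : 0 < ‖a‖) (ρ : ℝ) (hρ : 0 ≤ ρ) :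
    ∃ C : ℝ, 0 ≤ C ∧ ∀ w : ℂ, ‖w‖ ≤ ρ → ∀ j, ‖Tm ω a w j‖ ≤ C * (1 / 2 : ℝ) ^ (j + 1) := by
  set r := ‖a‖ with hr
  set B : ℝ := 2 * ρ + 2 * (ρ / r ^ 2) + 1 with hB
  have hBpos : 0 < B := by positivity
  have hωB : 0 < ω B := h.pos B hBpos.le
  set m0 := ∫ x in Ioi 0, ω x * x ^ 0
  have hm0 : 0 < m0 := h.m_pos 0
  set L := ∫ x in Ioi r, ω x / x
  have hL : 0 < L := h.L_pos ha
  refine ⟨(m0 / r + L) / ω B, by positivity, fun w hw j => ?_⟩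
  unfold Tm
  rw [norm_div, norm_den h, norm_mul, norm_pow]
  have hm := h.m_lower hBpos j
  have hmpos : 0 < ω B * B ^ (j + 1) := by positivity
  have h1 : ‖a⁻¹ ^ (j + 1) * (((∫ x in Ioc 0 r, ω x * x ^ j : ℝ)) : ℂ) -
      ((starRingEnd ℂ) a)⁻¹ ^ (j + 1) * (((∫ x in Ioi r, ω x * (x ^ (j + 2))⁻¹ : ℝ)) : ℂ)‖ ≤
      m0 / r + (r⁻¹ ^ 2) ^ (j + 1) * L := by
    refine (norm_sub_le _ _).trans (add_le_add ?_ ?_)
    · rw [norm_mul, norm_pow, norm_inv, Complex.norm_real, Real.norm_eq_abs,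
        abs_of_nonneg (h.I_nonneg r j), ← hr]
      calc r⁻¹ ^ (j + 1) * ∫ x in Ioc 0 r, ω x * x ^ j ≤ r⁻¹ ^ (j + 1) * (r ^ j * m0) :=
            mul_le_mul_of_nonneg_left (h.I_le ha j) (by positivity)
        _ = m0 / r := by rw [pow_succ, inv_pow]; field_simp
    · rw [norm_mul, norm_pow, norm_inv, RCLike.norm_conj, Complex.norm_real, Real.norm_eq_abs,
        abs_of_nonneg (h.J_nonneg ha j), ← hr]
      calc r⁻¹ ^ (j + 1) * ∫ x in Ioi r, ω x * (x ^ (j + 2))⁻¹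
          ≤ r⁻¹ ^ (j + 1) * ((r ^ (j + 1))⁻¹ * L) :=
            mul_le_mul_of_nonneg_left (h.J_le ha j) (by positivity)
        _ = (r⁻¹ ^ 2) ^ (j + 1) * L := by rw [← inv_pow, sq, mul_pow]; ring
  have h2 : ‖w‖ ^ (j + 1) ≤ ρ ^ (j + 1) := pow_le_pow_left₀ (norm_nonneg _) hw _
  rw [div_le_iff₀ (lt_of_lt_of_le hmpos hm)]
  have h3 : (m0 / r + (r⁻¹ ^ 2) ^ (j + 1) * L) * ρ ^ (j + 1) ≤
      (m0 / r + L) * (1 / 2 : ℝ) ^ (j + 1) * B ^ (j + 1) := by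
    have g1 : ρ ^ (j + 1) ≤ (1 / 2 : ℝ) ^ (j + 1) * B ^ (j + 1) := by
      rw [← mul_pow]
      apply pow_le_pow_left₀ hρ
      have : 0 ≤ ρ / r ^ 2 := by positivity
      rw [hB]; linarith
    have g2 : (r⁻¹ ^ 2) ^ (j + 1) * ρ ^ (j + 1) ≤ (1 / 2 : ℝ) ^ (j + 1) * B ^ (j + 1) := by
      rw [← mul_pow, ← mul_pow]
      apply pow_le_pow_left₀ (by positivity)
      have : r⁻¹ ^ 2 * ρ = ρ / r ^ 2 := by rw [inv_pow]; field_simp
      rw [this, hB]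
      linarith
    have g3 : 0 ≤ m0 / r := by positivity
    calc (m0 / r + (r⁻¹ ^ 2) ^ (j + 1) * L) * ρ ^ (j + 1)
        = (m0 / r) * ρ ^ (j + 1) + L * ((r⁻¹ ^ 2) ^ (j + 1) * ρ ^ (j + 1)) := by ring
      _ ≤ (m0 / r) * ((1 / 2 : ℝ) ^ (j + 1) * B ^ (j + 1)) + L * ((1 / 2 : ℝ) ^ (j + 1) * B ^ (j + 1)) :=
          add_le_add (mul_le_mul_of_nonneg_left g1 g3) (mul_le_mul_of_nonneg_left g2 hL.le)
      _ = _ := by ring
  calc _ ≤ (m0 / r + (r⁻¹ ^ 2) ^ (j + 1) * L) * ρ ^ (j + 1) :=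
        mul_le_mul h1 h2 (by positivity) (by positivity)
    _ ≤ (m0 / r + L) * (1 / 2 : ℝ) ^ (j + 1) * B ^ (j + 1) := h3
    _ = (m0 / r + L) / ω B * (1 / 2 : ℝ) ^ (j + 1) * (ω B * B ^ (j + 1)) := by field_simp
    _ ≤ _ := mul_le_mul_of_nonneg_left hm (by positivity)

lemma geom_summable (C : ℝ) : Summable (fun j : ℕ => C * (1 / 2 : ℝ) ^ (j + 1)) :=
  ((summable_nat_add_iff 1).mpr (summable_geometric_of_lt_one (by norm_num) (by norm_num : (1 / 2 : ℝ) < 1))).mul_left C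

lemma geom_tsum (C : ℝ) : ∑' j : ℕ, C * (1 / 2 : ℝ) ^ (j + 1) = C := by
  rw [tsum_mul_left]
  have : ∑' j : ℕ, (1 / 2 : ℝ) ^ (j + 1) = 1 := by
    simp_rw [pow_succ]
    rw [tsum_mul_right, tsum_geometric_of_lt_one (by norm_num) (by norm_num)]
    norm_num
  rw [this, mul_one]

lemma tm_summable (h : Wt ω) (a : ℂ) (ha : 0 < ‖a‖) (w : ℂ) : Summable (Tm ω a w) := by
  obtain ⟨C, _, hC⟩ := term_bound h a ha ‖w‖ (norm_nonneg w)
  exact Summable.of_norm_bounded (geom_summable C) (hC w le_rfl)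

/-- the factor -/
noncomputable def Fac (ω : ℝ → ℝ) (a w : ℂ) : ℂ :=
  (1 - w / a) * Complex.exp (-((((∫ x in Ioi ‖a‖, ω x / x : ℝ)) : ℂ) - ∑' j : ℕ, Tm ω a w j))

lemma fac_bounded (h : Wt ω) (a : ℂ) (ha : 0 < ‖a‖) (ρ : ℝ) (hρ : 0 ≤ ρ) :
    ∃ M : ℝ, ∀ w : ℂ, ‖w‖ ≤ ρ → ‖Fac ω a w‖ ≤ M := by
  obtain ⟨C, hC0, hC⟩ := term_bound h a ha ρ hρ
  refine ⟨(1 + ρ / ‖a‖) * Real.exp ((∫ x in Ioi ‖a‖, ω x / x) + C), fun w hw => ?_⟩
  unfold Fac
  rw [norm_mul]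
  refine mul_le_mul ?_ ?_ (norm_nonneg _) (by positivity)
  · refine (norm_sub_le _ _).trans ?_
    rw [norm_one, norm_div]
    gcongr
  · refine (Complex.norm_exp_le_exp_norm _).trans (Real.exp_le_exp.mpr ?_)
    rw [norm_neg]
    refine (norm_sub_le _ _).trans (add_le_add ?_ ?_)
    · rw [Complex.norm_real, Real.norm_eq_abs, abs_of_pos (h.L_pos ha)]
    · have hs : Summable (fun j => ‖Tm ω a w j‖) :=
        Summable.of_nonneg_of_le (fun _ => norm_nonneg _) (hC w hw) (geom_summable C)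
      calc ‖∑' j, Tm ω a w j‖ ≤ ∑' j, ‖Tm ω a w j‖ := norm_tsum_le_tsum_norm hs
        _ ≤ ∑' j, C * (1 / 2 : ℝ) ^ (j + 1) := hs.tsum_le_tsum (hC w hw) (geom_summable C)
        _ = C := geom_tsum C

/-- For far away zeros the factor is `exp (-E)` with `E = O(L)`. -/
lemma fac_far (h : Wt ω) {R : ℝ} (hR : 0 < R) (hd : ∀ x : ℝ, R < x → DifferentiableAt ℝ ω x)
    (hs : AntitoneOn (fun x : ℝ => x * deriv ω x / ω x) (Ioi R)) {r₀ ρ : ℝ} (hr₀ : R < r₀)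
    (hρ : 0 ≤ ρ) (hρ2 : 2 * ρ ≤ r₀) (h1 : 1 ≤ r₀) (a w : ℂ) (ha : r₀ ≤ ‖a‖) (hw : ‖w‖ ≤ ρ) :
    ∃ E : ℂ, Fac ω a w = Complex.exp (-E) ∧
      ‖E‖ ≤ (1 + (1 / (∫ x in Ioi r₀, ω x / x) + 1 / ω 1)) * ∫ x in Ioi ‖a‖, ω x / x := by
  have hr₀0 : 0 < r₀ := hR.trans hr₀
  have hapos : 0 < ‖a‖ := lt_of_lt_of_le hr₀0 ha
  have ha0 : a ≠ 0 := norm_pos_iff.mp hapos
  set r := ‖a‖ with hr
  set L := ∫ x in Ioi r, ω x / x with hL
  set L₀ := ∫ x in Ioi r₀, ω x / x with hL₀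
  have hLpos : 0 < L := h.L_pos hapos
  have hL₀pos : 0 < L₀ := h.L_pos hr₀0
  have hω1 : 0 < ω 1 := h.pos 1 zero_le_one
  have hwa : ‖w / a‖ < 1 := by
    rw [norm_div, div_lt_one hapos]
    linarith
  have hsum := Complex.hasSum_taylorSeries_neg_log' hwa
  have htm := tm_summable h a hapos w
  set C : ℝ := (1 / L₀ + 1 / ω 1) * L with hC
  set e : ℕ → ℂ := fun j => (w / a) ^ (j + 1) / ((j : ℂ) + 1) - Tm ω a w j with he
  have hebound : ∀ j, ‖e j‖ ≤ C * (1 / 2 : ℝ) ^ (j + 1) := by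
    intro j
    set m := ∫ x in Ioi 0, ω x * x ^ j with hm
    have hmpos : 0 < m := h.m_pos j
    have hj : (0 : ℝ) < (j : ℝ) + 1 := by positivity
    have hjc : ((j : ℂ) + 1) ≠ 0 := by
      have : ((j : ℂ) + 1) = (((j : ℝ) + 1 : ℝ) : ℂ) := by push_cast; rfl
      rw [this]; exact_mod_cast hj.ne'
    have hsplit := h.split hapos j
    have hac : (starRingEnd ℂ) a ≠ 0 := by simpa using ha0
    have heq : e j = ((w / a) ^ (j + 1) * (((∫ x in Ioi r, ω x * x ^ j : ℝ)) : ℂ) +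
        (w / (starRingEnd ℂ) a) ^ (j + 1) * (((∫ x in Ioi r, ω x * (x ^ (j + 2))⁻¹ : ℝ)) : ℂ)) /
        (((j : ℂ) + 1) * ((m : ℝ) : ℂ)) := by
      have hmc : ((m : ℝ) : ℂ) ≠ 0 := by exact_mod_cast hmpos.ne'
      have hmc2 : ((m : ℝ) : ℂ) = (((∫ x in Ioc 0 r, ω x * x ^ j : ℝ)) : ℂ) +
          (((∫ x in Ioi r, ω x * x ^ j : ℝ)) : ℂ) := by
        rw [hm, hsplit]; push_cast; rfl
      simp only [he, Tm]
      rw [← hm, ← hr]
      rw [div_sub_div _ _ hjc (mul_ne_zero hjc hmc), div_eq_div_iff (mul_ne_zero hjc (mul_ne_zero hjc hmc)) (mul_ne_zero hjc hmc)]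
      rw [div_pow, div_pow, inv_pow, inv_pow]
      have hp1 : a ^ (j + 1) ≠ 0 := pow_ne_zero _ ha0
      have hp2 : (starRingEnd ℂ) a ^ (j + 1) ≠ 0 := pow_ne_zero _ hac
      generalize hI : (((∫ x in Ioc 0 r, ω x * x ^ j : ℝ)) : ℂ) = I at *
      generalize hT : (((∫ x in Ioi r, ω x * x ^ j : ℝ)) : ℂ) = T at *
      generalize hJ : (((∫ x in Ioi r, ω x * (x ^ (j + 2))⁻¹ : ℝ)) : ℂ) = J at *
      rw [hmc2]
      field_simp
      ring
    rw [heq, norm_div]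
    have hden : ‖(((j : ℂ) + 1) * ((m : ℝ) : ℂ))‖ = ((j : ℝ) + 1) * m := norm_den h j
    rw [hden, div_le_iff₀ (by positivity)]
    have hT := h.T_nonneg hapos j
    have hJ := h.J_nonneg hapos j
    have hkey := h.mono_key hR hd hs hr₀ ha j
    have hT0 := h.T_le hr₀0 j
    have hJ' := h.J_le hapos j
    have hm1 := h.m_lower one_pos j
    rw [one_pow, mul_one] at hm1
    rw [← hm] at hT0 hm1
    rw [← hL] at hkey hJ'
    rw [← hL₀] at hkey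
    set T := ∫ x in Ioi r, ω x * x ^ j
    set T₀ := ∫ x in Ioi r₀, ω x * x ^ j
    set J := ∫ x in Ioi r, ω x * (x ^ (j + 2))⁻¹
    -- first part
    have hq : ‖w‖ / r ≤ ρ / r := by gcongr
    have p1 : (‖w‖ / r) ^ (j + 1) * T ≤ (1 / 2 : ℝ) ^ (j + 1) * (m * (L / L₀)) := by
      have s1 : T ≤ T₀ * (r ^ (j + 1) * L) / (r₀ ^ (j + 1) * L₀) := by
        rw [le_div_iff₀ (by positivity)]; exact hkey
      have s2 : T₀ * (r ^ (j + 1) * L) / (r₀ ^ (j + 1) * L₀) ≤ m * (r ^ (j + 1) * L) / (r₀ ^ (j + 1) * L₀) := by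
        gcongr
      have s3 : (‖w‖ / r) ^ (j + 1) ≤ (ρ / r) ^ (j + 1) := pow_le_pow_left₀ (by positivity) hq _
      calc (‖w‖ / r) ^ (j + 1) * T ≤ (ρ / r) ^ (j + 1) * (m * (r ^ (j + 1) * L) / (r₀ ^ (j + 1) * L₀)) :=
            mul_le_mul s3 (s1.trans s2) hT (by positivity)
        _ = (ρ / r₀) ^ (j + 1) * (m * (L / L₀)) := by
            rw [div_pow, div_pow]
            field_simp
        _ ≤ (1 / 2 : ℝ) ^ (j + 1) * (m * (L / L₀)) := by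
            apply mul_le_mul_of_nonneg_right _ (by positivity)
            apply pow_le_pow_left₀ (by positivity)
            rw [div_le_div_iff₀ hr₀0 two_pos]
            linarith
    have p2 : (‖w‖ / r) ^ (j + 1) * J ≤ (1 / 2 : ℝ) ^ (j + 1) * L := by
      have s1 : (‖w‖ / r) ^ (j + 1) ≤ (1 / 2 : ℝ) ^ (j + 1) := by
        apply pow_le_pow_left₀ (by positivity)
        rw [div_le_div_iff₀ hapos two_pos]
        linarith
      have s2 : J ≤ L := by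
        refine hJ'.trans ?_
        have : (r ^ (j + 1))⁻¹ ≤ 1 := inv_le_one_of_one_le₀ (one_le_pow₀ (h1.trans ha))
        calc (r ^ (j + 1))⁻¹ * L ≤ 1 * L := mul_le_mul_of_nonneg_right this hLpos.le
          _ = L := one_mul L
      exact mul_le_mul s1 s2 hJ (by positivity)
    calc ‖(w / a) ^ (j + 1) * (T : ℂ) + (w / (starRingEnd ℂ) a) ^ (j + 1) * (J : ℂ)‖
        ≤ (‖w‖ / r) ^ (j + 1) * T + (‖w‖ / r) ^ (j + 1) * J := by
          refine (norm_add_le _ _).trans (add_le_add ?_ ?_)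
          · rw [norm_mul, norm_pow, norm_div, Complex.norm_real, Real.norm_eq_abs, abs_of_nonneg hT]
          · rw [norm_mul, norm_pow, norm_div, RCLike.norm_conj, Complex.norm_real, Real.norm_eq_abs,
              abs_of_nonneg hJ]
      _ ≤ (1 / 2 : ℝ) ^ (j + 1) * (m * (L / L₀)) + (1 / 2 : ℝ) ^ (j + 1) * L := add_le_add p1 p2
      _ ≤ C * (1 / 2 : ℝ) ^ (j + 1) * (((j : ℝ) + 1) * m) := by
          have t1 : m * (L / L₀) ≤ (1 / L₀) * L * (((j : ℝ) + 1) * m) := by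
            have : (1 : ℝ) ≤ (j : ℝ) + 1 := by linarith [Nat.cast_nonneg (α := ℝ) j]
            calc m * (L / L₀) = (1 / L₀) * L * (1 * m) := by ring
              _ ≤ _ := by gcongr
          have t2 : L ≤ (1 / ω 1) * L * (((j : ℝ) + 1) * m) := by
            calc L = (1 / ω 1) * L * ω 1 := by field_simp
              _ ≤ _ := by gcongr
          rw [hC]
          have : 0 ≤ (1 / 2 : ℝ) ^ (j + 1) := by positivity
          nlinarith [mul_le_mul_of_nonneg_left t1 this, mul_le_mul_of_nonneg_left t2 this]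
  have hesum : Summable e := Summable.of_norm_bounded (geom_summable C) hebound
  refine ⟨(L : ℂ) + ∑' j, e j, ?_, ?_⟩
  · have h2 : ∑' j, e j = -Complex.log (1 - w / a) - ∑' j, Tm ω a w j := by
      rw [he, hsum.summable.tsum_sub htm, hsum.tsum_eq]
    have hne : 1 - w / a ≠ 0 := by
      intro h0
      have : w / a = 1 := by linear_combination -h0
      rw [this, norm_one] at hwa
      exact lt_irrefl _ hwa
    unfold Fac
    rw [h2, ← hr, ← hL]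
    rw [show -((L : ℂ) + (-Complex.log (1 - w / a) - ∑' j, Tm ω a w j)) =
      Complex.log (1 - w / a) + -((L : ℂ) - ∑' j, Tm ω a w j) by ring, Complex.exp_add, Complex.exp_log hne]
  · refine (norm_add_le _ _).trans ?_
    rw [Complex.norm_real, Real.norm_eq_abs, abs_of_pos hLpos, add_mul, one_mul]
    have hs2 : Summable (fun j => ‖e j‖) :=
      Summable.of_nonneg_of_le (fun _ => norm_nonneg _) hebound (geom_summable C)
    have : ‖∑' j, e j‖ ≤ C := by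
      calc ‖∑' j, e j‖ ≤ ∑' j, ‖e j‖ := norm_tsum_le_tsum_norm hs2
        _ ≤ ∑' j, C * (1 / 2 : ℝ) ^ (j + 1) := hs2.tsum_le_tsum hebound (geom_summable C)
        _ = C := geom_tsum C
    linarith

end Pool.Agent.D393fc
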